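import Pool.Agent.Helper30.UP.St

set_option autoImplicit false

noncomputable section

/-! Project UP, module PUR: purification (helper4). -/

namespace Pool.Agent.Helper4.UP

open Finset Pool.Agent.Helper30.UP
open scoped Classical

/-- the elements of `W` orthogonal to `v` -/
def sub {c : ℕ} (W : Submodule (ZMod 2) (E c)) (v : E c) : Submodule (ZMod 2) (E c) where
  carrier := {x | x ∈ W ∧ x ⬝ᵥ v = 0}
  add_mem' := by
    intro a b ha hb
    refine ⟨W.add_mem ha.1 hb.1, ?_⟩
    rw [add_dotProduct, ha.2, hb.2, add_zero]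
  zero_mem' := ⟨W.zero_mem, zero_dotProduct v⟩
  smul_mem' := by
    intro a x hx
    refine ⟨W.smul_mem a hx.1, ?_⟩
    rw [smul_dotProduct, hx.2, smul_zero]

theorem mem_sub {c : ℕ} (W : Submodule (ZMod 2) (E c)) (v x : E c) :
    x ∈ sub W v ↔ x ∈ W ∧ x ⬝ᵥ v = 0 := Iff.rfl

theorem card_sub {c : ℕ} (W : Submodule (ZMod 2) (E c)) (v : E c) (hv : v ∉ perp W) :
    Nat.card W ≤ 2 * Nat.card (sub W v) := by
  rw [mem_perp] at hv
  push Not at hv
  obtain ⟨y, hy, hyv⟩ := hv
  have hy1 : y ⬝ᵥ v = 1 := by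
    rcases z2 (y ⬝ᵥ v) with h | h
    · exact absurd h hyv
    · exact h
  rw [← card_el, ← card_el]
  have hsub : el W ⊆ el (sub W v) ∪ (el (sub W v)).image (fun x => x + y) := by
    intro x hx
    rw [mem_el] at hx
    rw [mem_union, mem_image]
    rcases z2 (x ⬝ᵥ v) with h | h
    · left
      rw [mem_el, mem_sub]
      exact ⟨hx, h⟩
    · right
      refine ⟨x + y, ?_, ?_⟩
      · rw [mem_el, mem_sub]
        refine ⟨W.add_mem hx hy, ?_⟩
        rw [add_dotProduct, h, hy1]
        exact z2_add_self 1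
      · rw [add_assoc, E_add_self, add_zero]
  calc (el W).card ≤ (el (sub W v) ∪ (el (sub W v)).image (fun x => x + y)).card :=
        card_le_card hsub
    _ ≤ (el (sub W v)).card + ((el (sub W v)).image (fun x => x + y)).card := card_union_le _ _
    _ ≤ (el (sub W v)).card + (el (sub W v)).card := by
        have := card_image_le (s := el (sub W v)) (f := fun x => x + y)
        omega
    _ = 2 * (el (sub W v)).card := by ring

theorem zc_sub {c n : ℕ} (s : Fin n → E c) (W : Submodule (ZMod 2) (E c)) (v : E c)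
    (hv : v ∉ perp W) :
    zc s W + (univ.filter (fun i => s i + v ∈ perp W)).card ≤ zc s (sub W v) := by
  unfold zc
  rw [← card_union_of_disjoint]
  · apply card_le_card
    intro i hi
    rw [mem_union, mem_filter, mem_filter] at hi
    rw [mem_filter]
    refine ⟨mem_univ _, ?_⟩
    rw [mem_perp]
    intro x hx
    rw [mem_sub] at hx
    rcases hi with ⟨_, hi⟩ | ⟨_, hi⟩
    · exact hi x hx.1
    · have h := hi x hx.1
      rw [dotProduct_add, hx.2, add_zero] at h
      exact h
  · rw [disjoint_left]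
    intro i hi hi2
    rw [mem_filter] at hi hi2
    apply hv
    have h := (perp W).add_mem hi.2 hi2.2
    rw [E_add_add] at h
    exact h

theorem aux (ε : ℝ) (hε : 0 < ε) (c n : ℕ) (s : Fin n → E c) (k : ℕ) :
    ∀ W : Submodule (ZMod 2) (E c), (n : ℝ) - zc s W ≤ k * (ε * n) →
    ∃ W' : Submodule (ZMod 2) (E c), W' ≤ W ∧ Pu s ε W' ∧ Nat.card W ≤ 2 ^ k * Nat.card W' := by
  induction k with
  | zero =>
    intro W hW
    by_cases hp : Pu s ε W
    · exact ⟨W, le_refl _, hp, by simp⟩
    · exfalso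
      unfold Pu at hp
      push Not at hp
      obtain ⟨v, hv, hlt⟩ := hp
      have h1 := zc_sub s W v hv
      have h2 : zc s (sub W v) ≤ n := by
        unfold zc
        refine (card_filter_le _ _).trans ?_
        simp
      have h3 : (n : ℝ) ≤ zc s W := by
        have : ((0 : ℕ) : ℝ) * (ε * n) = 0 := by simp
        linarith
      have h4 : n ≤ zc s W := by exact_mod_cast h3
      have h5 : (univ.filter (fun i => s i + v ∈ perp W)).card = 0 := by omega
      rw [h5] at hlt
      have hn : (0 : ℝ) ≤ n := Nat.cast_nonneg n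
      have h7 : 0 ≤ ε * n := mul_nonneg hε.le hn
      simp only [Nat.cast_zero] at hlt
      linarith
  | succ k ih =>
    intro W hW
    by_cases hp : Pu s ε W
    · refine ⟨W, le_refl _, hp, ?_⟩
      exact Nat.le_mul_of_pos_left _ (by positivity)
    · unfold Pu at hp
      push Not at hp
      obtain ⟨v, hv, hlt⟩ := hp
      have h1 := zc_sub s W v hv
      have h1' : (zc s W : ℝ) + ((univ.filter (fun i => s i + v ∈ perp W)).card : ℕ) ≤
          zc s (sub W v) := by exact_mod_cast h1
      obtain ⟨W', hW'1, hW'2, hW'3⟩ := ih (sub W v) (by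
        push_cast at hW
        nlinarith)
      refine ⟨W', hW'1.trans (fun x hx => hx.1), hW'2, ?_⟩
      have h2 := card_sub W v hv
      calc Nat.card W ≤ 2 * Nat.card (sub W v) := h2
        _ ≤ 2 * (2 ^ k * Nat.card W') := by omega
        _ = 2 ^ (k + 1) * Nat.card W' := by ring

theorem hPUR : StPUR := by
  intro ε hε c n s W
  refine aux ε hε c n s ⌈1 / ε⌉₊ W ?_
  have h1 : 1 / ε ≤ ⌈1 / ε⌉₊ := Nat.le_ceil _
  have h2 : 1 ≤ (⌈1 / ε⌉₊ : ℝ) * ε := by
    rw [div_le_iff₀ hε] at h1
    exact h1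
  have h3 : (0 : ℝ) ≤ zc s W := Nat.cast_nonneg _
  have h4 : (0 : ℝ) ≤ n := Nat.cast_nonneg _
  nlinarith

end Pool.Agent.Helper4.UP
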